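import Pool.Agent.Lib.MP_d29ee2_al.Ordered

namespace Pool.Agent.Results.MP_d29ee2_al.OrderPreserving

open Pool.Agent.Lib.MP_d29ee2_al

universe u

/-- The variant of Q1 with order-preserving homomorphisms has a negative answer: there is an
ordered group `G`, order-embeddable in a divisible ordered group, such that for every minimal
divisible completion `K` of `G` some minimal divisible completion `H` of `G` receives no
order-preserving homomorphism from `K` fixing `G` pointwise. -/
theorem result :
    ∃ (G : Type) (_ : Group G) (_ : LinearOrder G) (_ : MulLeftMono G) (_ : MulRightMono G),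
      (∃ (D : Type) (_ : Group D) (_ : LinearOrder D) (_ : MulLeftMono D) (_ : MulRightMono D)
        (j₀ : G →* D), IsOrderEmb j₀ ∧ IsDivisibleGroup D) ∧
      ∀ (K : Type u) [Group K] [LinearOrder K] [MulLeftMono K] [MulRightMono K] (i : G →* K),
        IsMinDivCompletion i →
          ∃ (H : Type) (_ : Group H) (_ : LinearOrder H) (_ : MulLeftMono H) (_ : MulRightMono H)
            (j : G →* H), IsMinDivCompletion j ∧
              ¬ ∃ φ : K →* H, Monotone φ ∧ ∀ g : G, φ (i g) = j g :=
  ⟨Aff.sub, inferInstance, inferInstance, subgroup_mulLeftMono _, subgroup_mulRightMono _,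
    ⟨Aff true, inferInstance, inferInstance, inferInstance, inferInstance, Aff.emb true,
      Aff.emb_isOrderEmb true, Aff.divisible⟩,
    fun _ _ _ _ _ i hi => no_ordered_universal i hi.2.1⟩

end Pool.Agent.Results.MP_d29ee2_al.OrderPreserving
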