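import Pool.Agent.Lib.MP_d29ee2_al.Universal

namespace Pool.Agent.Results.MP_d29ee2_al.Universal

open Pool.Agent.Lib.MP_d29ee2_al

universe u v w

/-- Q1, positive answer.  Let `G` be an ordered group that order-embeds into some divisible
ordered group.  Then `G` has a minimal divisible completion `K` such that every minimal divisible
completion `H` of `G` is the image of `K` under a homomorphism fixing `G` pointwise. -/
theorem result (G : Type u) [Group G] [LinearOrder G] [MulLeftMono G] [MulRightMono G]
    (hG : ∃ (D : Type v) (_ : Group D) (_ : LinearOrder D) (_ : MulLeftMono D)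
      (_ : MulRightMono D) (j₀ : G →* D), IsOrderEmb j₀ ∧ IsDivisibleGroup D) :
    ∃ (K : Type u) (_ : Group K) (_ : LinearOrder K) (_ : MulLeftMono K) (_ : MulRightMono K)
      (i : G →* K), IsMinDivCompletion i ∧
        ∀ (H : Type w) [Group H] [LinearOrder H] [MulLeftMono H] [MulRightMono H] (j : G →* H),
          IsMinDivCompletion j →
            ∃ φ : K →* H, Function.Surjective φ ∧ ∀ g : G, φ (i g) = j g := by
  obtain ⟨D, _, _, _, _, j₀, hj₀, hD⟩ := hG
  obtain ⟨K, hK⟩ := main.{u, v, w} G D j₀ hj₀ hD
  exact ⟨K.H, K.grp, K.ord, K.lm, K.rm, K.j, K.spec, hK⟩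

end Pool.Agent.Results.MP_d29ee2_al.Universal
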